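import Pool.Agent.Lib.MP_ab8df0_nt.T.B20.Def

/-! Proof trees. -/

set_option maxRecDepth 100000

namespace Pool.Agent.Lib.MP_ab8df0_nt.T.B20

open Pool.Agent.Lib.MP_ab8df0_nt.B Pool.Agent.Lib.MP_ab8df0_nt.P

def r3_1 : Tree := .root 61 1 [] (ce 2 264 5 1 0x15) (.fin 42 59 61 [[ce 0 264 5 2 0x260], [ce (-2) 264 5 1 0x1d]] (.newt 65 [[ce 0 264 7 2 0x2f80, ce 0 264 4 2 0x1b], [ce 1 264 6 1 0x31, ce (-2) 264 4 1 0xd]] (.set 64 [[], []] (.edead 42 62 50 [false, false, false, false, false] [ce 0 264 6 2 0x176, ce 0 264 1 0 0x0])))) (.fin 42 59 61 [[ce 0 264 5 2 0x260], [ce (-2) 264 2 1 0x3]] (.newt 65 [[ce 0 264 7 2 0x2f80, ce 0 264 4 2 0x1b], [ce 1 264 9 1 0x197, ce (-2) 264 2 1 0x3]] (.set 64 [[], []] (.edead 42 62 50 [false, false, false, false, false] [ce 0 264 6 2 0x176, ce 0 264 1 0 0x0]))))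

def r3_2 : Tree := .half 42 59 50 [ce 0 264 5 2 0x260, ce (-2) 264 6 1 0x3d] (ce 0 264 6 2 0xb5f) (.root 61 1 [] (ce 2 264 5 1 0x15) (.fin 42 59 61 [[ce 0 264 5 2 0x260], [ce (-2) 264 5 1 0x1d]] (.newt 65 [[ce 0 264 7 2 0x2f80, ce 0 264 4 2 0x1b], [ce 1 264 9 1 0x197, ce (-2) 264 2 1 0x3]] (.set 64 [[], []] (.edead 42 62 50 [false, false, false, false, false] [ce 0 264 6 2 0x176, ce 0 264 1 0 0x0])))) (.fin 42 59 61 [[ce 0 264 5 2 0x260], [ce (-2) 264 2 1 0x3]] (.newt 65 [[ce 0 264 7 2 0x2f80, ce 0 264 4 2 0x1b], [ce 1 264 6 1 0x31, ce (-2) 264 4 1 0xd]] (.set 64 [[], []] (.edead 42 62 50 [false, false, false, false, false] [ce 0 264 6 2 0x176, ce 0 264 1 0 0x0])))))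

def r3_3 : Tree := .set 56 [[], []] (.set 57 [[], []] (.set 58 [[], []] (.set 59 [[ce (-4) 264 7 2 0x30db], [ce (-4) 264 5 1 0x19]] (.set 60 [[ce (-2) 264 7 2 0x1ce6], [ce (-2) 264 7 1 0x7b]] (.half 42 61 50 [ce 2 264 5 2 0x2b1, ce 2 264 3 1 0x5] (ce (-2) 264 7 2 0x3fa) (.root 62 1 [] (ce (-2) 264 8 1 0xa5) (.fin 42 61 62 [[ce 2 264 7 2 0x3da7], [ce 2 264 6 1 0x2d]] (.newt 66 [[ce (-2) 264 7 2 0x10db, ce 2 264 6 2 0xdd0], [ce (-2) 264 7 1 0x59, ce 2 264 6 1 0x39]] (.set 65 [[], []] (.half 42 63 50 [ce 1 264 6 2 0xd51, ce 1 264 6 1 0x25] (ce (-1) 264 8 2 0xc75a) (.root 67 1 [] (ce (-1) 264 8 1 0xc5) (.fin 42 63 67 [[ce 1 264 7 2 0xde7], [ce 1 264 4 1 0xd]] (.newt 71 [[ce (-2) 264 9 2 0x3c39b, ce 2 264 6 2 0xdd0], [ce (-2) 264 8 1 0xd9, ce 2 264 6 1 0x39]] (.set 70 [[], []] (.half 42 68 50 [ce 1 264 6 2 0x571, ce 1 264 6 1 0x25]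 (ce (-1) 264 8 2 0xe71a) (.root 72 1 [] (ce (-1) 264 3 1 0x5) (.fin 42 68 72 [[ce 1 264 7 2 0x3dc7], [ce 1 264 7 1 0x4d]] (.newt 76 [[ce 0 264 9 2 0x1434b, ce 0 264 6 2 0x5f0], [ce 0 264 4 1 0x9, ce 0 264 5 1 0x19]] (.set 75 [[], []] (.half 42 73 50 [ce 0 264 5 2 0xb9, ce 0 264 4 1 0xd] (ce 0 264 7 2 0x28fe) (.root 77 1 [] (ce 0 264 5 1 0x1d) (.fin 42 73 77 [[ce 0 264 7 2 0x3a81], [ce 0 264 6 1 0x35]] (.newt 81 [[ce 2 264 9 2 0x2583b, ce 0 264 6 2 0x78], [ce 0 264 9 1 0x17d, ce 0 264 6 1 0x21]] (.set 80 [[], []] (.edead 42 78 50 [false, true, false, true, false] [ce (-1) 264 5 2 0x32b, ce 0 264 1 0 0x0])))) (.fin 42 73 77 [[ce 0 264 7 2 0x3a81], [ce 0 264 7 1 0x4b]] (.newt 81 [[ce 2 264 9 2 0x2583b, ce 0 264 6 2 0x78], [ce 2 264 9 1 0x1f3, ce 0 264 5 1 0x1f]] (.set 80 [[], []] (.edead 42 78 50 [false, true, false, true, false]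 [ce (-1) 264 5 2 0x32b, ce 0 264 1 0 0x0]))))))))) (.fin 42 68 72 [[ce 1 264 7 2 0x3dc7], [ce 1 264 6 1 0x33]] (.newt 76 [[ce 0 264 9 2 0x1434b, ce 0 264 6 2 0x5f0], [ce 4 264 8 1 0x91, ce 0 264 6 1 0x27]] (.set 75 [[], []] (.half 42 73 50 [ce 0 264 5 2 0xb9, ce (-2) 264 1 1 0x1] (ce 0 264 7 2 0x28fe) (.root 77 1 [] (ce 2 264 8 1 0xc9) (.fin 42 73 77 [[ce 0 264 7 2 0x3a81], [ce (-2) 264 7 1 0x79]] (.newt 81 [[ce 2 264 9 2 0x2583b, ce 0 264 6 2 0x78], [ce 1 264 10 1 0x2f7, ce (-2) 264 6 1 0x2b]] (.set 80 [[], []] (.add 78 47 false [[ce 0 264 9 2 0xb96b], [ce (-2) 264 9 1 0x14b]] (.tr 82 [[ce (-2) 264 8 2 0xffd], [ce (-4) 264 6 1 0x3f]] (.half 42 83 50 [ce 0 264 6 2 0x16a, ce 1 264 6 1 0x25] (ce 0 264 8 2 0x65b5) (.root 84 1 [] (ce (-1) 264 3 1 0x5) (.fin 42 83 84 [[ce 0 264 7 2 0x1ec2], [ce 1 264 4 1 0xd]] (.newt 88 [[ce 2 264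 9 2 0x36fe5, ce (-2) 264 6 2 0xaef], [ce 4 264 1 1 0x1, ce 0 264 3 1 0x7]] (.set 87 [[], []] (.edead 42 85 50 [false, true, false, false, false] [ce (-1) 264 6 2 0x679, ce (-2) 264 1 1 0x1])))) (.fin 42 83 84 [[ce 0 264 7 2 0x1ec2], [ce 1 264 6 1 0x33]] (.newt 88 [[ce 2 264 9 2 0x36fe5, ce (-2) 264 6 2 0xaef], [ce 0 264 4 1 0x9, ce 0 264 5 1 0x19]] (.set 87 [[], []] (.edead 42 85 50 [false, true, false, false, false] [ce (-1) 264 6 2 0x679, ce 0 264 1 1 0x1]))))))))))) (.fin 42 73 77 [[ce 0 264 7 2 0x3a81], [ce (-2) 264 3 1 0x7]] (.newt 81 [[ce 2 264 9 2 0x2583b, ce 0 264 6 2 0x78], [ce 1 264 10 1 0x391, ce (-2) 264 5 1 0x15]] (.set 80 [[], []] (.edead 42 78 50 [false, true, false, true, false] [ce (-1) 264 5 2 0x32b, ce (-1) 264 1 1 0x1])))))))))))))) (.fin 42 63 67 [[ce 1 264 7 2 0xde7], [ce 1 264 7 1 0x73]] (.newt 71 [[ce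 (-2) 264 9 2 0x3c39b, ce 2 264 6 2 0xdd0], [ce 4 264 6 1 0x3f, ce 2 264 3 1 0x7]] (.set 70 [[], []] (.edead 42 68 50 [false, false, false, false, false] [ce 1 264 6 2 0x571, ce (-2) 264 1 1 0x1]))))))))) (.fin 42 61 62 [[ce 2 264 7 2 0x3da7], [ce 2 264 7 1 0x53]] (.newt 66 [[ce (-2) 264 7 2 0x10db, ce 2 264 6 2 0xdd0], [ce 6 264 1 1 0x1, ce 2 264 3 1 0x7]] (.set 65 [[], []] (.half 42 63 50 [ce 1 264 6 2 0xd51, ce (-3) 264 1 1 0x1] (ce (-1) 264 8 2 0xc75a) (.root 67 1 [] (ce 3 264 1 1 0x1) (.fin 42 63 67 [[ce 1 264 7 2 0xde7], [ce (-3) 264 1 1 0x1]] (.newt 71 [[ce (-2) 264 9 2 0x3c39b, ce 2 264 6 2 0xdd0], [ce 1 264 12 1 0xb0b, ce (-2) 264 6 1 0x23]] (.set 70 [[], []] (.edead 42 68 50 [false, false, false, false, false] [ce 1 264 6 2 0x571, ce 0 264 1 0 0x0])))) (.fin 42 63 67 [[ce 1 264 7 2 0xde7], [ce (-3) 264 7 1 0x7f]] (.newt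 71 [[ce (-2) 264 9 2 0x3c39b, ce 2 264 6 2 0xdd0], [ce 1 264 13 1 0x1515, ce (-2) 264 5 1 0x1d]] (.set 70 [[], []] (.edead 42 68 50 [false, false, false, false, false] [ce 1 264 6 2 0x571, ce 0 264 1 0 0x0])))))))))))))))

def r3_4 : Tree := .add 52 43 false [[ce (-5) 264 4 2 0x94], [ce (-5) 264 5 1 0x1b]] (.half 42 54 50 [ce 1 264 6 2 0x16a, ce 2 264 1 1 0x1] (ce (-1) 264 6 2 0xd6d) (.root 55 1 [] (ce (-2) 264 1 1 0x1) (.fin 42 54 55 [[ce 1 264 4 2 0x5a], [ce 2 264 1 1 0x1]] (.newt 59 [[ce 0 264 6 2 0x3e8, ce 0 264 4 2 0x97], [ce (-2) 264 6 1 0x21, ce 2 264 1 1 0x1]] (.set 58 [[], []] (.half 42 56 50 [ce 0 264 4 2 0x5a, ce 1 264 1 1 0x1] (ce 0 264 6 2 0x56d) (.root 60 1 [] (ce (-1) 264 1 1 0x1) (.fin 42 56 60 [[ce 0 264 4 2 0x5a], [ce 1 264 1 1 0x1]] (.newt 64 [[ce 0 264 7 2 0x3df8, ce 0 264 4 2 0xd7], [ce (-2) 264 1 1 0x1,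 ce 2 264 1 1 0x1]] (.set 63 [[], []] (.half 42 61 50 [ce 0 264 6 2 0x9d4, ce 1 264 1 1 0x1] (ce 0 264 6 2 0xd7b) (.root 65 1 [] (ce (-1) 264 1 1 0x1) (.fin 42 61 65 [[ce 0 264 5 2 0xf4], [ce 1 264 1 1 0x1]] (.newt 69 [[ce 2 264 7 1 0x6f, ce (-2) 264 3 2 0x2d], [ce 0 264 7 1 0x41, ce 0 264 1 1 0x1]] (.set 68 [[], []] (.edead 42 66 50 [false, true, false, false, false] [ce (-1) 264 6 2 0x801, ce 0 264 1 1 0x1])))) (.fin 42 61 65 [[ce 0 264 5 2 0xf4], [ce 1 264 5 1 0x1f]] (.newt 69 [[ce 2 264 7 1 0x6f, ce (-2) 264 3 2 0x2d], [ce 4 264 1 1 0x1, ce 0 264 4 1 0xf]] (.set 68 [[], []] (.edead 42 66 50 [false, true, false, false, false] [ce (-1) 264 6 2 0x801, ce (-2) 264 1 1 0x1]))))))))) (.fin 42 56 60 [[ce 0 264 4 2 0x5a], [ce 1 264 5 1 0x1f]] (.newt 64 [[ce 0 264 7 2 0x3df8, ce 0 264 4 2 0xd7], [ce 4 264 2 1 0x3, ce 2 264 4 1 0xf]]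 (.set 63 [[], []] (.edead 42 61 50 [false, false, false, false, false] [ce 0 264 6 2 0x9d4, ce (-2) 264 1 1 0x1]))))))))) (.fin 42 54 55 [[ce 1 264 4 2 0x5a], [ce 2 264 5 1 0x1f]] (.newt 59 [[ce 0 264 6 2 0x3e8, ce 0 264 4 2 0x97], [ce 9 264 3 1 0x7, ce 2 264 4 1 0xf]] (.newt 59 [[], [ce 6 264 4 1 0x9, ce 2 264 6 1 0x3f]] (.set 58 [[], []] (.half 42 56 50 [ce 0 264 4 2 0x5a, ce (-3) 264 3 1 0x5] (ce 0 264 6 2 0x56d) (.root 60 1 [] (ce 3 264 4 1 0xd) (.fin 42 56 60 [[ce 0 264 4 2 0x5a], [ce (-3) 264 3 1 0x5]] (.newt 64 [[ce 0 264 7 2 0x3df8, ce 0 264 4 2 0xd7], [ce 1 264 10 1 0x38b, ce (-2) 264 4 1 0xf]] (.set 63 [[], []] (.edead 42 61 50 [false, false, false, false, false] [ce 0 264 6 2 0x9d4, ce 0 264 1 0 0x0])))) (.fin 42 56 60 [[ce 0 264 4 2 0x5a], [ce (-3) 264 5 1 0x1b]] (.newt 64 [[ce 0 264 7 2 0x3df8, ce 0 264 4 2 0xd7],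 [ce 1 264 9 1 0x195, ce (-2) 264 1 1 0x1]] (.set 63 [[], []] (.edead 42 61 50 [false, false, false, false, false] [ce 0 264 6 2 0x9d4, ce 0 264 1 0 0x0]))))))))))))

def r3_0 : Tree := .set 10 [[], []] (.set 11 [[], []] (.set 12 [[], []] (.set 13 [[], []] (.set 14 [[], []] (.set 15 [[], []] (.set 16 [[], []] (.set 17 [[], []] (.set 18 [[], []] (.set 19 [[], []] (.set 20 [[], []] (.set 21 [[ce 0 264 128 1 0xed206c6697f462b8dcac479f36af2ef1], [ce 0 264 128 1 0xed206c6697f462b8dcac479f36af2ef1]] (.set 22 [[ce 0 264 128 1 0xf40c8a473e4247132afc5c28504a6637], [ce 0 264 128 1 0xf40c8a473e4247132afc5c28504a6637]] (.set 23 [[], []] (.set 24 [[], []] (.set 25 [[], []] (.set 26 [[], []] (.set 27 [[], []] (.set 28 [[], []] (.set 29 [[], []] (.piv [13, 14, 15, 16, 17] [[ce 0 264 1 0 0x0], [ce 0 264 1 1 0x1], [ce 0 264 6 2 0xe4b], [ce 0 264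 6 2 0x96f], [ce 0 264 6 2 0xb46, ce 0 264 1 1 0x1]] (.piv [] [] (.disc 30 (.root 32 0 [] (ce 0 264 8 2 0xc8a1) (.root 32 1 [] (ce 0 264 9 1 0x1d9) (.set 31 [[ce 0 264 9 2 0x1a101], [ce 0 264 9 1 0x1f1]] (.set 35 [[ce 0 264 9 2 0x1a101], [ce 0 264 9 1 0x1f1]] (.set 36 [[], []] (.yrt 37 [] (ce 2 264 8 2 0xb4b5) (.root 53 1 [] (ce 2 264 6 1 0x29) (.split 30 (.newt 32 [[ce 0 264 8 2 0xc8a1, ce (-1) 264 7 2 0x3c21], [ce 0 264 9 1 0x1d9, ce (-1) 264 7 1 0x69]] (.set 31 [[ce 0 264 10 2 0x34301], [ce 0 264 9 1 0x1f1]] (.set 35 [[ce 0 264 10 2 0x34301], [ce 0 264 9 1 0x1f1]] (.set 36 [[], []] (.newt 52 [[ce 2 264 8 2 0x94d5, ce (-3) 264 6 2 0x33d], [ce 2 264 4 1 0x9, ce (-3) 264 6 1 0x29]] (.set 38 [[ce 0 264 10 2 0x34301], [ce 0 264 9 1 0x1f1]] (.set 39 [[ce (-2) 264 7 2 0x2221], [ce (-2) 264 8 1 0xad]] (.set 40 [[], []] (.dent 52 43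 41 false [[ce (-3) 264 7 2 0x1d5d], [ce (-3) 264 6 1 0x2b]] [[ce 0 264 14 2 0x7602281], [ce 0 264 14 1 0x3381]] [[ce 0 264 13 2 0x34813c1], [ce 0 264 13 1 0x1741]] (.deep 42 50 50 54 55 30 4 [8, 8] [([], [])] [([false, false, false, false, false], [ce 0 264 1 1 0x1, ce (-1) 264 1 1 0x1])] (.pcase 57 56 45 [[ce 0 264 1 1 0x1], [ce 0 264 10 1 0x36f]] (.yrt 58 [] (ce 0 264 1 1 0x1) (.root 60 1 [] (ce 4 264 1 1 0x1) (.half 42 59 50 [ce 0 264 5 2 0x260, ce (-2) 264 6 1 0x3d] (ce 0 264 6 2 0xb5f) (.root 61 1 [] (ce 2 264 5 1 0x15) (.fin 42 59 61 [[ce 0 264 5 2 0x260], [ce (-2) 264 5 1 0x1d]] (.newt 65 [[ce 0 264 7 2 0x2f80, ce 0 264 4 2 0x1b], [ce 1 264 6 1 0x31, ce (-2) 264 4 1 0xd]] (.set 64 [[], []] (.edead 42 62 50 [false, false, false, false, false] [ce 0 264 6 2 0x176, ce 0 264 1 0 0x0])))) (.fin 42 59 61 [[ce 0 264 5 2 0x260],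 [ce (-2) 264 2 1 0x3]] (.newt 65 [[ce 0 264 7 2 0x2f80, ce 0 264 4 2 0x1b], [ce 1 264 9 1 0x197, ce (-2) 264 2 1 0x3]] (.set 64 [[], []] (.edead 42 62 50 [false, false, false, false, false] [ce 0 264 6 2 0x176, ce 0 264 1 0 0x0])))))) (.half 42 59 50 [ce 0 264 5 2 0x260, ce (-2) 264 6 1 0x3d] (ce 0 264 6 2 0xb5f) (.root 61 1 [] (ce 2 264 5 1 0x15) (.fin 42 59 61 [[ce 0 264 5 2 0x260], [ce (-2) 264 5 1 0x1d]] (.newt 65 [[ce 0 264 7 2 0x2f80, ce 0 264 4 2 0x1b], [ce 1 264 9 1 0x197, ce (-2) 264 2 1 0x3]] (.set 64 [[], []] (.edead 42 62 50 [false, false, false, false, false] [ce 0 264 6 2 0x176, ce 0 264 1 0 0x0])))) (.fin 42 59 61 [[ce 0 264 5 2 0x260], [ce (-2) 264 2 1 0x3]] (.newt 65 [[ce 0 264 7 2 0x2f80, ce 0 264 4 2 0x1b], [ce 1 264 6 1 0x31, ce (-2) 264 4 1 0xd]] (.set 64 [[], []] (.edead 42 62 50 [false, false, false, false,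 false] [ce 0 264 6 2 0x176, ce 0 264 1 0 0x0])))))))) (.pnil 57)) (.pnil 57) (.set 56 [[], []] (.set 57 [[], []] (.set 58 [[], []] (.set 59 [[ce (-4) 264 7 2 0xcb], [ce (-4) 264 6 1 0x29]] (.set 60 [[ce (-2) 264 7 2 0x38ee], [ce (-2) 264 6 1 0x33]] (.half 42 61 50 [ce 2 264 6 2 0xd79, ce 2 264 6 1 0x3d] (ce (-2) 264 8 2 0x4ff2) (.root 62 1 [] (ce (-2) 264 7 1 0x6d) (.fin 42 61 62 [[ce 2 264 7 2 0xddf], [ce 2 264 7 1 0x65]] (.newt 66 [[ce (-2) 264 9 2 0x3824b, ce 2 264 6 2 0x1e0], [ce (-2) 264 7 1 0x69, ce 2 264 6 1 0x29]] (.set 65 [[], []] (.half 42 63 50 [ce 1 264 6 2 0x579, ce 1 264 5 1 0x1d] (ce (-1) 264 8 2 0xfd2) (.root 67 1 [] (ce (-1) 264 8 1 0x8d) (.fin 42 63 67 [[ce 1 264 6 2 0xedf], [ce 1 264 7 1 0x45]] (.newt 71 [[ce (-2) 264 9 2 0x3038b, ce 2 264 6 2 0x1e0], [ce (-2) 264 8 1 0xe9, ce 2 264 6 1 0x29]] (.set 70 [[],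 []] (.half 42 68 50 [ce 1 264 6 2 0xd59, ce 1 264 5 1 0x1d] (ce (-1) 264 8 2 0x2f92) (.root 72 1 [] (ce (-1) 264 8 1 0xcd) (.fin 42 68 72 [[ce 1 264 7 2 0xdff], [ce 1 264 3 1 0x5]] (.newt 76 [[ce 0 264 9 2 0x2833b, ce 0 264 6 2 0x9c0], [ce 0 264 9 1 0x119, ce 0 264 4 1 0x9]] (.set 75 [[], []] (.half 42 73 50 [ce 0 264 6 2 0x941, ce 0 264 3 1 0x5] (ce 0 264 7 2 0x4c6) (.root 77 1 [] (ce 0 264 8 1 0xa5) (.fin 42 73 77 [[ce 0 264 7 2 0xac9], [ce 0 264 6 1 0x2d]] (.newt 81 [[ce 2 264 9 2 0x391b, ce 0 264 6 2 0xc68], [ce 0 264 9 1 0x14d, ce 0 264 5 1 0x11]] (.set 80 [[], []] (.edead 42 78 50 [false, true, false, true, false] [ce (-1) 264 6 2 0xa63, ce 0 264 1 0 0x0])))) (.fin 42 73 77 [[ce 0 264 7 2 0xac9], [ce 0 264 7 1 0x53]] (.newt 81 [[ce 2 264 9 2 0x391b, ce 0 264 6 2 0xc68], [ce 2 264 9 1 0x1c3, ce 0 264 6 1 0x2f]] (.set 80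 [[], []] (.edead 42 78 50 [false, true, false, true, false] [ce (-1) 264 6 2 0xa63, ce 0 264 1 0 0x0]))))))))) (.fin 42 68 72 [[ce 1 264 7 2 0xdff], [ce 1 264 7 1 0x7b]] (.newt 76 [[ce 0 264 9 2 0x2833b, ce 0 264 6 2 0x9c0], [ce 4 264 1 1 0x1, ce 0 264 6 1 0x37]] (.set 75 [[], []] (.half 42 73 50 [ce 0 264 6 2 0x941, ce (-2) 264 1 1 0x1] (ce 0 264 7 2 0x4c6) (.root 77 1 [] (ce 2 264 1 1 0x1) (.fin 42 73 77 [[ce 0 264 7 2 0xac9], [ce (-2) 264 1 1 0x1]] (.newt 81 [[ce 2 264 9 2 0x391b, ce 0 264 6 2 0xc68], [ce 1 264 11 1 0x6b7, ce (-2) 264 6 1 0x3b]] (.set 80 [[], []] (.add 78 47 false [[ce 0 264 10 2 0x273eb], [ce (-2) 264 9 1 0x16b]] (.tr 82 [[ce (-2) 264 8 2 0xbf3d], [ce (-4) 264 5 1 0x17]] (.half 42 83 50 [ce 0 264 4 2 0x5a, ce 1 264 1 1 0x1] (ce 0 264 8 2 0xfd45) (.root 84 1 [] (ce (-1) 264 1 1 0x1) (.fin 42 83 84 [[ce 0 264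 6 2 0xb6a], [ce 1 264 1 1 0x1]] (.newt 88 [[ce 2 264 9 2 0x4f05, ce (-2) 264 5 2 0x37f], [ce 4 264 5 1 0x19, ce 0 264 4 1 0xf]] (.set 87 [[], []] (.edead 42 85 50 [false, true, false, false, false] [ce (-1) 264 6 2 0xe79, ce (-2) 264 1 1 0x1])))) (.fin 42 83 84 [[ce 0 264 6 2 0xb6a], [ce 1 264 6 1 0x3f]] (.newt 88 [[ce 2 264 9 2 0x4f05, ce (-2) 264 5 2 0x37f], [ce 0 264 7 1 0x71, ce 0 264 5 1 0x11]] (.set 87 [[], []] (.edead 42 85 50 [false, true, false, false, false] [ce (-1) 264 6 2 0xe79, ce 0 264 1 1 0x1]))))))))))) (.fin 42 73 77 [[ce 0 264 7 2 0xac9], [ce (-2) 264 7 1 0x7f]] (.newt 81 [[ce 2 264 9 2 0x391b, ce 0 264 6 2 0xc68], [ce 1 264 11 1 0x751, ce (-2) 264 3 1 0x5]] (.set 80 [[], []] (.edead 42 78 50 [false, true, false, true, false] [ce (-1) 264 6 2 0xa63, ce (-1) 264 1 1 0x1])))))))))))))) (.fin 42 63 67 [[ce 1 264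 6 2 0xedf], [ce 1 264 6 1 0x3b]] (.newt 71 [[ce (-2) 264 9 2 0x3038b, ce 2 264 6 2 0x1e0], [ce 4 264 4 1 0xf, ce 2 264 5 1 0x17]] (.set 70 [[], []] (.edead 42 68 50 [false, false, false, false, false] [ce 1 264 6 2 0xd59, ce (-2) 264 1 1 0x1]))))))))) (.fin 42 61 62 [[ce 2 264 7 2 0xddf], [ce 2 264 5 1 0x1b]] (.newt 66 [[ce (-2) 264 9 2 0x3824b, ce 2 264 6 2 0x1e0], [ce 6 264 1 1 0x1, ce 2 264 5 1 0x17]] (.set 65 [[], []] (.half 42 63 50 [ce 1 264 6 2 0x579, ce (-3) 264 1 1 0x1] (ce (-1) 264 8 2 0xfd2) (.root 67 1 [] (ce 3 264 8 1 0x99) (.fin 42 63 67 [[ce 1 264 6 2 0xedf], [ce (-3) 264 6 1 0x29]] (.newt 71 [[ce (-2) 264 9 2 0x3038b, ce 2 264 6 2 0x1e0], [ce 1 264 13 1 0x120b, ce (-2) 264 6 1 0x23]] (.set 70 [[], []] (.edead 42 68 50 [false, false, false, false, false] [ce 1 264 6 2 0xd59, ce 0 264 1 0 0x0])))) (.fin 42 63 67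 [[ce 1 264 6 2 0xedf], [ce (-3) 264 7 1 0x57]] (.newt 71 [[ce (-2) 264 9 2 0x3038b, ce 2 264 6 2 0x1e0], [ce 1 264 13 1 0x1c15, ce (-2) 264 5 1 0x1d]] (.set 70 [[], []] (.edead 42 68 50 [false, false, false, false, false] [ce 1 264 6 2 0xd59, ce 0 264 1 0 0x0])))))))))))))))))))))))))) (.newt 32 [[ce 0 264 10 2 0xea1a1, ce (-1) 264 6 2 0x221], [ce 0 264 10 1 0x379, ce (-1) 264 5 1 0x19]] (.set 31 [[ce 0 264 10 2 0x24301], [ce 0 264 10 1 0x331]] (.set 35 [[ce 0 264 10 2 0x24301], [ce 0 264 10 1 0x331]] (.set 36 [[], []] (.newt 52 [[ce 2 264 9 2 0x2c895, ce (-3) 264 6 2 0x91d], [ce 2 264 8 1 0xf9, ce (-3) 264 6 1 0x31]] (.set 38 [[ce 0 264 10 2 0x24301], [ce 0 264 10 1 0x331]] (.set 39 [[ce (-2) 264 7 2 0x3a21], [ce (-2) 264 8 1 0xbd]] (.set 40 [[], []] (.dent 52 43 41 false [[ce (-3) 264 7 2 0x393d], [ce (-3) 264 7 1 0x73]] [[ce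 0 264 14 2 0xa601681], [ce 0 264 14 1 0x3f81]] [[ce 0 264 12 2 0xc401c1], [ce 0 264 12 1 0x941]] (.deep 42 50 50 54 55 30 4 [8, 8] [([], [])] [([false, false, false, false, false], [ce 0 264 1 1 0x1, ce (-1) 264 1 1 0x1])] (.pcase 57 56 45 [[ce 0 264 1 1 0x1], [ce 0 264 10 1 0x36f]] (.yrt 58 [] (ce 0 264 1 1 0x1) (.root 60 1 [] (ce 4 264 1 1 0x1) (.half 42 59 50 [ce 0 264 5 2 0x260, ce (-2) 264 6 1 0x3d] (ce 0 264 6 2 0xb5f) r3_1) r3_2)) (.pnil 57)) (.pnil 57) r3_3))))))))))) r3_4))))) (.deadp 34 1 [] (ce 0 264 1 1 0x1))) (.root 32 1 [] (ce 0 264 9 1 0x1d9) (.deadp 34 0 [] (ce 0 264 5 2 0x201)) (.deadp 34 0 [] (ce 0 264 5 2 0x201))))))))))))))))))))))))))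

theorem r3 : run (FDK3.pick [1, 0]).ds (FDK3.pick [1, 0]).es [[], []] vs.length (fullH 9 vs (M 48 6) A) r3_0 = true := by
  decide +kernel

def r4_0 : Tree := .set 10 [[], []] (.set 11 [[], []] (.set 12 [[], []] (.set 13 [[], []] (.set 14 [[], []] (.set 15 [[], []] (.set 16 [[], []] (.set 17 [[], []] (.set 18 [[], []] (.set 19 [[], []] (.set 20 [[], []] (.set 21 [[ce 0 264 128 1 0xed206c6697f462b8dcac479f36af2ef1], [ce 0 264 128 1 0xed206c6697f462b8dcac479f36af2ef1]] (.set 22 [[ce 0 264 128 1 0xf40c8a473e4247132afc5c28504a6637], [ce 0 264 128 1 0xf40c8a473e4247132afc5c28504a6637]] (.set 23 [[], []] (.set 24 [[], []] (.set 25 [[], []] (.set 26 [[], []] (.set 27 [[], []] (.set 28 [[], []] (.set 29 [[], []] (.piv [13, 14, 15, 16, 17] [[ce 0 264 1 0 0x0], [ce 0 264 1 1 0x1], [ce 0 264 6 2 0xe4b], [ce 0 264 6 2 0x96f], [ce 0 264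 6 2 0xb46, ce 0 264 1 1 0x1]] (.piv [] [] (.disc 30 (.root 32 0 [] (ce 0 264 7 2 0x3a49) (.root 32 1 [] (ce 0 264 4 1 0xd) (.deadp 34 0 [] (ce 0 264 6 2 0xe01)) (.deadp 34 0 [] (ce 0 264 6 2 0xe01))) (.root 32 1 [] (ce 0 264 4 1 0xd) (.deadp 34 0 [] (ce 0 264 6 2 0xe01)) (.deadp 34 0 [] (ce 0 264 6 2 0xe01))))))))))))))))))))))))))

theorem r4 : run (FDK3.pick [1, 0]).ds (FDK3.pick [1, 0]).es [[], []] vs.length (fullH 9 vs (M 8 4) A) r4_0 = true := by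
  decide +kernel

def r5_0 : Tree := .set 10 [[], []] (.set 11 [[], []] (.set 12 [[], []] (.set 13 [[], []] (.set 14 [[], []] (.set 15 [[], []] (.set 16 [[], []] (.set 17 [[], []] (.set 18 [[], []] (.set 19 [[], []] (.set 20 [[], []] (.set 21 [[ce 0 264 128 1 0xed206c6697f462b8dcac479f36af2ef1], [ce 0 264 128 1 0xed206c6697f462b8dcac479f36af2ef1]] (.set 22 [[ce 0 264 128 1 0xf40c8a473e4247132afc5c28504a6637], [ce 0 264 128 1 0xf40c8a473e4247132afc5c28504a6637]] (.set 23 [[], []] (.set 24 [[], []] (.set 25 [[], []] (.set 26 [[], []] (.set 27 [[], []] (.set 28 [[], []] (.set 29 [[], []] (.piv [13, 14, 15, 16, 17] [[ce 0 264 1 0 0x0], [ce 0 264 1 1 0x1], [ce 0 264 6 2 0xe4b], [ce 0 264 6 2 0x96f], [ce 0 264 6 2 0xb46, ce 0 264 1 1 0x1]] (.piv [] [] (.disc 30 (.deadp 33 0 [] (ce 0 264 6 2 0x631))))))))))))))))))))))))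

theorem r5 : run (FDK3.pick [1, 0]).ds (FDK3.pick [1, 0]).es [[], []] vs.length (fullH 9 vs (M 4 3) A) r5_0 = true := by
  decide +kernel

def r6_0 : Tree := .set 10 [[], []] (.set 11 [[], []] (.set 12 [[], []] (.set 13 [[], []] (.set 14 [[], []] (.set 15 [[], []] (.set 16 [[], []] (.set 17 [[], []] (.set 18 [[], []] (.set 19 [[], []] (.set 20 [[], []] (.set 21 [[ce 0 264 128 1 0xed206c6697f462b8dcac479f36af2ef1], [ce 0 264 128 1 0xed206c6697f462b8dcac479f36af2ef1]] (.set 22 [[ce 0 264 128 1 0xf40c8a473e4247132afc5c28504a6637], [ce 0 264 128 1 0xf40c8a473e4247132afc5c28504a6637]] (.set 23 [[], []] (.set 24 [[], []] (.set 25 [[], []] (.set 26 [[], []] (.set 27 [[], []] (.set 28 [[], []] (.set 29 [[], []] (.piv [13, 14, 15, 16, 17] [[ce 0 264 1 0 0x0], [ce 0 264 1 1 0x1], [ce 0 264 6 2 0xe4b], [ce 0 264 6 2 0x96f], [ce 0 264 6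 2 0xb46, ce 0 264 1 1 0x1]] (.piv [] [] (.disc 30 (.deadp 33 0 [] (ce 0 264 5 2 0x30d))))))))))))))))))))))))

theorem r6 : run (FDK3.pick [1, 0]).ds (FDK3.pick [1, 0]).es [[], []] vs.length (fullH 9 vs (M 2 2) A) r6_0 = true := by
  decide +kernel

end Pool.Agent.Lib.MP_ab8df0_nt.T.B20
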