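import Pool.Agent.Lib.MP_ab8df0_nt.T.B20.R0
import Pool.Agent.Lib.MP_ab8df0_nt.T.B20.R1
import Pool.Agent.Lib.MP_ab8df0_nt.T.B20.R2
import Pool.Agent.Lib.MP_ab8df0_nt.T.B20.R3

/-! The result of the computation. -/

set_option maxRecDepth 100000

namespace Pool.Agent.Lib.MP_ab8df0_nt.T.B20

open Pool.Agent.Lib.MP_ab8df0_nt.B Pool.Agent.Lib.MP_ab8df0_nt.P

theorem relD {K : Type} [Field K] [NumberField K] {a : K} {pl : List (Place K)} {ph : List (K →+* ℝ)}
    {w : List (IsDedekindDomain.HeightOneSpectrum (NumberField.RingOfIntegers K))}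
    (hP : Pack K (FDK3.pick [1, 0]) a pl ph w) : cval a vs 18 = (2 * a) := by
  have h : (cval a vs 18 + (-((((2 : ℤ) : K) * cval a vs 0)))) = 0 :=
    hP.rel vs (.add (.var 18) (.neg (.mul (.num 2) (.var 0)))) (by decide +kernel)
  have h0 : cval a vs 0 = a := by simp [cval, vs, ev]
  try rw [h0] at h
  try push_cast at h
  linear_combination h

theorem relb {K : Type} [Field K] [NumberField K] {a : K} {pl : List (Place K)} {ph : List (K →+* ℝ)}
    {w : List (IsDedekindDomain.HeightOneSpectrum (NumberField.RingOfIntegers K))}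
    (hP : Pack K (FDK3.pick [1, 0]) a pl ph w) : cval a vs 11 = (-(((cval a vs 18) ^ 2))) := by
  have h : (cval a vs 11 + (-((-(((cval a vs 18) ^ 2)))))) = 0 :=
    hP.rel vs (.add (.var 11) (.neg (.neg (.sq (.var 18))))) (by decide +kernel)
  have h0 : cval a vs 0 = a := by simp [cval, vs, ev]
  try rw [h0] at h
  try push_cast at h
  linear_combination h

theorem core {K : Type} [Field K] [NumberField K] {a : K} {pl : List (Place K)} {ph : List (K →+* ℝ)}
    {w : List (IsDedekindDomain.HeightOneSpectrum (NumberField.RingOfIntegers K))}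
    (hP : Pack K (FDK3.pick [1, 0]) a pl ph w) {G : Prop} (t W g X x y dG0 dX0 dx0 : K)
    (hdisc : Q2 1 (t - ((0 : ℤ) : K)))
    (hG : g = ((2 * ((1 + (t * a)))⁻¹) - 1))
    (hW : W ^ 2 = (1 + ((t * a) * ((t * a) - 1))))
    (hclsW : IsSquare (1 + ((t * a) * ((t * a) - 1))))
    (hcls : IsSquare (W * (1 + (t * a))))
    (hX : X = (2 * (W * ((1 + (t * a)))⁻¹)))
    (hx : x = (cval a vs 18 * X))
    (hon : On (cval a vs 10) (cval a vs 11) x y)
    (hdG0 : ((1 + (t * a)) * (1 + (0 * a))) * dG0 = ((-2) * a))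
    (hdX0 : (X + cval a vs 13) * dX0 = (3 * ((g + cval a vs 25) * dG0)))
    (hdx0 : dx0 = (cval a vs 18 * dX0))
    (hdq0n : (1 * t - 0) ≠ 0) (hdq0 : x - cval a vs 19 = (1 * t - 0) * dx0) :
    G := by
  refine hP.cover (fr := [t, W, g, X, x, y, dG0, dX0, dx0]) (M := M) (cs := [[], []]) rfl auto
    (l := [(0, 6), (32, 6), (16, 6), (48, 6), (8, 4), (4, 3), (2, 2)]) (by decide) ?_ hdisc fun tt kk hq => ?_
  · exact List.forall_mem_cons.2 ⟨⟨_, r0⟩, List.forall_mem_cons.2 ⟨⟨_, r1⟩, List.forall_mem_cons.2 ⟨⟨_, r2⟩, List.forall_mem_cons.2 ⟨⟨_, r3⟩, List.forall_mem_cons.2 ⟨⟨_, r4⟩, List.forall_mem_cons.2 ⟨⟨_, r5⟩, List.forall_mem_cons.2 ⟨⟨_, r6⟩, fun _ h => absurd h List.not_mem_nil⟩⟩⟩⟩⟩⟩⟩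
  · refine List.forall_mem_cons.2 ⟨?_, List.forall_mem_cons.2 ⟨?_, List.forall_mem_cons.2 ⟨?_, List.forall_mem_cons.2 ⟨?_, List.forall_mem_cons.2 ⟨?_, List.forall_mem_cons.2 ⟨?_, List.forall_mem_cons.2 ⟨?_, List.forall_mem_cons.2 ⟨?_, List.forall_mem_cons.2 ⟨?_, List.forall_mem_cons.2 ⟨?_, List.forall_mem_cons.2 ⟨?_, List.forall_mem_cons.2 ⟨?_, fun _ h => absurd h List.not_mem_nil⟩⟩⟩⟩⟩⟩⟩⟩⟩⟩⟩⟩
    · exact hq
    · show g = ((((2 : ℤ) : K) * ((((1 : ℤ) : K) + (t * a)))⁻¹) + (-(((1 : ℤ) : K))))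
      try push_cast
      linear_combination hG
    · show W ^ 2 = (((1 : ℤ) : K) + ((t * a) * ((t * a) + (-(((1 : ℤ) : K))))))
      try push_cast
      linear_combination hW
    · exact span_of_isSquare (x := (((1 : ℤ) : K) + ((t * a) * ((t * a) + (-(((1 : ℤ) : K))))))) ((by push_cast; ring : (((1 : ℤ) : K) + ((t * a) * ((t * a) + (-(((1 : ℤ) : K)))))) = (1 + ((t * a) * ((t * a) - 1)))) ▸ hclsW)
    · exact span_of_isSquare (x := (W * (((1 : ℤ) : K) + (t * a)))) ((by push_cast; ring : (W * (((1 : ℤ) : K) + (t * a))) = (W * (1 + (t * a)))) ▸ hcls)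
    · show X = (((2 : ℤ) : K) * (W * ((((1 : ℤ) : K) + (t * a)))⁻¹))
      try push_cast
      linear_combination hX
    · show x = (cval a vs 18 * X)
      try push_cast
      linear_combination hx
    · exact hon
    · show ((((1 : ℤ) : K) + (t * a)) * (((1 : ℤ) : K) + (((0 : ℤ) : K) * a))) * dG0 = (((-2 : ℤ) : K) * a)
      try push_cast
      linear_combination hdG0
    · show (X + cval a vs 13) * dX0 = (((3 : ℤ) : K) * ((g + cval a vs 25) * dG0))
      try push_cast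
      linear_combination hdX0
    · show dx0 = (cval a vs 18 * dX0)
      try push_cast
      linear_combination hdx0
    · show (((1 : ℤ) : K) * t - ((0 : ℤ) : K)) ≠ 0 ∧ x - cval a vs 19 = (((1 : ℤ) : K) * t - ((0 : ℤ) : K)) * dx0
      try push_cast
      exact ⟨by simpa using hdq0n, by linear_combination hdq0⟩

end Pool.Agent.Lib.MP_ab8df0_nt.T.B20
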