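import Pool.Agent.Lib.MP_ab8df0_nt.B.Auto2
import Pool.Agent.Lib.MP_ab8df0_nt.P.K3D

/-! Constants and hypotheses. -/

set_option maxRecDepth 100000

namespace Pool.Agent.Lib.MP_ab8df0_nt.T.B20

open Pool.Agent.Lib.MP_ab8df0_nt.B Pool.Agent.Lib.MP_ab8df0_nt.P

def vs : Cs := [([0, 1], 1), ([], 1), ([], 1), ([], 1), ([], 1), ([], 1), ([], 1), ([], 1), ([], 1), ([], 1), 
  ([], 1),
  ([0, 0, -4], 1),
  ([0, 0, 16], 1),
  ([2], 1),
  ([-1], 1),
  ([1, 1], 1),
  ([-1, 1], 1),
  ([0, -1], 1),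
  ([0, 2], 1),
  ([0, 4], 1),
  ([-12], 1),
  ([0, 5476], 529),
  ([688644], 12167),
  ([0, 3], 1),
  ([15], 1),
  ([1], 1),
  ([3], 1),
  ([0, 1, -1], 1),
  ([0, 3, -1], 1),
  ([0, -2], 1)]

def c0 : EC := ⟨10, 11, 10, 12, [13, 14, 15, 16, 17], [13, 14, 15, 16, 17]⟩

def M (t0 : ℤ) (k0 : ℕ) : List Hyp := [
  .disc 1 t0 k0,
  .eq 3 (.add (.mul (.num 2) (.inv (.add (.num 1) (.mul (.var 1) (.var 0))))) (.neg (.num 1))),
  .sqr 2 (.add (.num 1) (.mul (.mul (.var 1) (.var 0)) (.add (.mul (.var 1) (.var 0)) (.neg (.num 1))))),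
  .cls (.add (.num 1) (.mul (.mul (.var 1) (.var 0)) (.add (.mul (.var 1) (.var 0)) (.neg (.num 1))))) [],
  .cls (.mul (.var 2) (.add (.num 1) (.mul (.var 1) (.var 0)))) [],
  .eq 4 (.mul (.num 2) (.mul (.var 2) (.inv (.add (.num 1) (.mul (.var 1) (.var 0)))))),
  .eq 5 (.mul (.var 18) (.var 4)),
  .on c0 false 5 6,
  .lin 7 (.mul (.add (.num 1) (.mul (.var 1) (.var 0))) (.add (.num 1) (.mul (.num 0) (.var 0)))) (.mul (.num (-2)) (.var 0)),
  .lin 8 (.add (.var 4) (.var 13)) (.mul (.num 3) (.mul (.add (.var 3) (.var 25)) (.var 7))),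
  .eq 9 (.mul (.var 18) (.var 8)),
  .dq 5 19 1 0 1 9]

def k0 : Cut := ⟨[], [], [], [[false, false, true, false, false], [true, false, false, false, false], [false, false, false, false, true], [false, false, false, true, false], [true, true, false, false, false]], [[false, true, false, false, false], [false, true, false, false, true], [true, false, false, false, false], [false, false, false, true, false], [false, false, true, false, false]]⟩

def A : List AH := [
  .ec c0 4 ([0, -1], 12) ([0, 1], 48) k0 k0,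
  .on c0 false 19 20,
  .on c0 false 21 22,
  .on c0 true 23 24,
  .on c0 false 17 26,
  .on c0 false 27 28,
  .on c0 false 29 10,
  .on c0 false 18 10]

theorem auto : (baseOk 9 vs && A.all (AH.ok (FDK3.pick [1, 0]) 9 vs)) = true := by decide +kernel

end Pool.Agent.Lib.MP_ab8df0_nt.T.B20
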