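import Pool.Agent.Lib.MP_ab8df0_nt.T.Cubic
import Pool.Agent.Lib.MP_ab8df0_nt.T.B20.Core
import Pool.Agent.Lib.MP_ab8df0_nt.T.B20e.Main
import Pool.Agent.Lib.MP_ab8df0_nt.P.K3

/-! The trivial class for the second equation. -/

namespace Pool.Agent.Lib.MP_ab8df0_nt.T.B20

open Pool.Agent.Lib.MP_ab8df0_nt.B Pool.Agent.Lib.MP_ab8df0_nt.P Pool.Agent.Lib.MP_ab8df0_nt.C

theorem main {K : Type} [Field K] [NumberField K] {a : K} {pl : List (Place K)} {ph : List (K →+* ℝ)}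
    {w : List (IsDedekindDomain.HeightOneSpectrum (NumberField.RingOfIntegers K))}
    (hP : Pack K (FDK3.pick [1, 0]) a pl ph w) : BB20 := by
  intro x y z hx hyz h hf
  have h3 : a ^ 3 = 3 := by
    have := hP.root
    simp only [FD.pick, FDK3, ev, List.length_cons, List.length_nil] at this
    push_cast at this
    linear_combination this
  have hz : Odd z := Int.not_even_iff_odd.1 (B20e.evenz hyz h hf)
  have hy2 : 2 ∣ y := by
    by_contra q
    exact B20e.oddy hyz h hf q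
  have hz0 : (z : K) ≠ 0 := ne_of_odd hz
  obtain ⟨al, ha0, hw, he, -⟩ := eta_exists (F := K) (t := a) (rho := 1) (by exact_mod_cast h3)
    (by simp [n3]) one_ne_zero (by simp [e3]) hx h hf
  have hw0 : (z : K) + y * a ≠ 0 := by
    intro h0
    simp only [Int.cast_one, one_mul, h0, neg_zero, e3] at hw
    exact pow_ne_zero 4 ha0 (by simpa using hw.symm)
  simp only [Int.cast_one, one_mul] at he
  obtain ⟨t, ht⟩ : ∃ t : K, t = y / z := ⟨_, rfl⟩
  obtain ⟨r, hr⟩ : ∃ r : K, r = x / al ^ 3 := ⟨_, rfl⟩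
  have hu1 : 1 + t * a = (z + y * a) / z := by rw [ht]; field_simp
  have hu : 1 + t * a ≠ 0 := hu1 ▸ div_ne_zero hw0 hz0
  obtain ⟨g, hg⟩ : ∃ g : K, g = 2 * (1 + t * a)⁻¹ - 1 := ⟨_, rfl⟩
  have hX : (2 * r ^ 2) ^ 2 = 1 + 3 * g ^ 2 := by
    have : g = (z - y * a) / (z + y * a) := by rw [hg, hu1]; field_simp; ring
    rw [this, ← he, hr]; ring
  have h1 : (1 + t * a) * (g + 1) = 2 := by rw [hg]; field_simp; ring
  have hW : (r ^ 2 * (1 + t * a)) ^ 2 = 1 + t * a * (t * a - 1) := by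
    linear_combination ((1 + t * a) ^ 2 / 4) * hX +
      (3 / 4 * ((1 + t * a) * (g - 1) + 2)) * h1
  left
  by_contra hy
  have hd0 : 1 * t - 0 ≠ 0 := by
    rw [ht, one_mul, sub_zero]
    exact div_ne_zero (Int.cast_ne_zero.2 hy) hz0
  have c10 : cval a vs 10 = 0 := by simp [cval, vs, ev]
  have c18 : cval a vs 18 = 2 * a := relD hP
  have c19 : cval a vs 19 = 4 * a := by simp [cval, vs, ev]; ring
  have c13 : cval a vs 13 = 2 := by simp [cval, vs, ev]
  have c25 : cval a vs 25 = 1 := by simp [cval, vs, ev]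
  obtain ⟨dG0, dX0, dx0, p1, p2, p3, p4⟩ := dqs (D := cval a vs 18) (G0 := cval a vs 25)
    (X0 := cval a vs 13) (x0 := cval a vs 19) hu hg hX (by rw [c25]; ring)
    (by rw [c13, c25]; ring) (by rw [c18, c19, c13]; ring) hd0
  refine core hP t (r ^ 2 * (1 + t * a)) g (2 * r ^ 2) _ (12 * r * g) dG0 dX0 dx0
    (ht ▸ Q2.of_div hz (by simpa using hy2)) hg hW ⟨_, by rw [← hW, sq]⟩
    ⟨r * (1 + t * a), by ring⟩ (by field_simp) rfl ?_ p1 p2 p3 hd0 p4
  unfold On
  rw [relb hP, c10, c18]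
  linear_combination (-48 * r ^ 2 * g ^ 2) * h3 - (16 * a ^ 3 * r ^ 2) * hX

theorem bb : BB20 := by
  obtain ⟨pl, ph, w, hP⟩ := K3.pack
  exact main (hP.pick [1, 0])

end Pool.Agent.Lib.MP_ab8df0_nt.T.B20
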