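import Pool.Agent.Lib.MP_ab8df0_nt.T.B20.Def

/-! Proof trees. -/

set_option maxRecDepth 100000

namespace Pool.Agent.Lib.MP_ab8df0_nt.T.B20

open Pool.Agent.Lib.MP_ab8df0_nt.B Pool.Agent.Lib.MP_ab8df0_nt.P

def r0_1 : Tree := .root 61 1 [] (ce 2 264 5 1 0x15) (.fin 42 59 61 [[ce 0 264 5 2 0x260], [ce (-2) 264 5 1 0x1d]] (.newt 65 [[ce 0 264 7 2 0x2f80, ce 0 264 4 2 0x1b], [ce 1 264 6 1 0x31, ce (-2) 264 4 1 0xd]] (.set 64 [[], []] (.edead 42 62 50 [false, false, false, false, false] [ce 0 264 6 2 0x176, ce 0 264 1 0 0x0])))) (.fin 42 59 61 [[ce 0 264 5 2 0x260], [ce (-2) 264 2 1 0x3]] (.newt 65 [[ce 0 264 7 2 0x2f80, ce 0 264 4 2 0x1b], [ce 1 264 9 1 0x197, ce (-2) 264 2 1 0x3]] (.set 64 [[], []] (.edead 42 62 50 [false, false, false, false, false] [ce 0 264 6 2 0x176, ce 0 264 1 0 0x0]))))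

def r0_2 : Tree := .half 42 59 50 [ce 0 264 5 2 0x260, ce (-2) 264 6 1 0x3d] (ce 0 264 6 2 0xb5f) (.root 61 1 [] (ce 2 264 5 1 0x15) (.fin 42 59 61 [[ce 0 264 5 2 0x260], [ce (-2) 264 5 1 0x1d]] (.newt 65 [[ce 0 264 7 2 0x2f80, ce 0 264 4 2 0x1b], [ce 1 264 9 1 0x197, ce (-2) 264 2 1 0x3]] (.set 64 [[], []] (.edead 42 62 50 [false, false, false, false, false] [ce 0 264 6 2 0x176, ce 0 264 1 0 0x0])))) (.fin 42 59 61 [[ce 0 264 5 2 0x260], [ce (-2) 264 2 1 0x3]] (.newt 65 [[ce 0 264 7 2 0x2f80, ce 0 264 4 2 0x1b], [ce 1 264 6 1 0x31, ce (-2) 264 4 1 0xd]] (.set 64 [[], []] (.edead 42 62 50 [false, false, false, false, false] [ce 0 264 6 2 0x176, ce 0 264 1 0 0x0])))))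

def r0_3 : Tree := .set 56 [[], []] (.set 57 [[], []] (.set 58 [[], []] (.set 59 [[ce (-4) 264 8 2 0xddbf], [ce (-4) 264 8 1 0xa1]] (.set 60 [[ce (-2) 264 7 2 0x39d8], [ce (-2) 264 7 1 0x51]] (.half 42 61 50 [ce 2 264 6 2 0xb7f, ce 2 264 1 1 0x1] (ce (-2) 264 8 2 0x6dc8) (.root 62 1 [] (ce (-2) 264 7 1 0x51) (.fin 42 61 62 [[ce 2 264 7 2 0x3da1], [ce 2 264 6 1 0x31]] (.newt 66 [[ce (-2) 264 9 2 0x3bbff, ce 2 264 2 2 0xc], [ce 6 264 4 1 0x9, ce 2 264 5 1 0x1f]] (.set 65 [[], []] (.half 42 63 50 [ce 1 264 6 2 0xb7f, ce (-3) 264 5 1 0x15] (ce (-1) 264 7 2 0x26e8) (.root 67 1 [] (ce 3 264 5 1 0x15) (.fin 42 63 67 [[ce 1 264 7 2 0x3dc1], [ce (-3) 264 6 1 0x3d]] (.newt 71 [[ce (-2) 264 9 2 0x3ba7f, ce 2 264 2 2 0xc], [ce 1 264 12 1 0x895, ce (-2) 264 5 1 0x1d]] (.set 70 [[], []] (.edead 42 68 50 [false, false, false,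 false, false] [ce 1 264 6 2 0xb7f, ce 0 264 1 0 0x0])))) (.fin 42 63 67 [[ce 1 264 7 2 0x3dc1], [ce (-3) 264 7 1 0x43]] (.newt 71 [[ce (-2) 264 9 2 0x3ba7f, ce 2 264 2 2 0xc], [ce 1 264 12 1 0xe8b, ce (-2) 264 6 1 0x23]] (.set 70 [[], []] (.edead 42 68 50 [false, false, false, false, false] [ce 1 264 6 2 0xb7f, ce 0 264 1 0 0x0]))))))))) (.fin 42 61 62 [[ce 2 264 7 2 0x3da1], [ce 2 264 7 1 0x4f]] (.newt 66 [[ce (-2) 264 9 2 0x3bbff, ce 2 264 2 2 0xc], [ce (-2) 264 6 1 0x21, ce 2 264 6 1 0x21]] (.set 65 [[], []] (.half 42 63 50 [ce 1 264 6 2 0xb7f, ce 1 264 1 1 0x1] (ce (-1) 264 7 2 0x26e8) (.root 67 1 [] (ce (-1) 264 7 1 0x51) (.fin 42 63 67 [[ce 1 264 7 2 0x3dc1], [ce 1 264 6 1 0x31]] (.newt 71 [[ce (-2) 264 9 2 0x3ba7f, ce 2 264 2 2 0xc], [ce 4 264 3 1 0x7, ce 2 264 5 1 0x1f]] (.set 70 [[], []] (.edead 42 68 50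 [false, false, false, false, false] [ce 1 264 6 2 0xb7f, ce (-2) 264 1 1 0x1])))) (.fin 42 63 67 [[ce 1 264 7 2 0x3dc1], [ce 1 264 7 1 0x4f]] (.newt 71 [[ce (-2) 264 9 2 0x3ba7f, ce 2 264 2 2 0xc], [ce (-2) 264 6 1 0x21, ce 2 264 6 1 0x21]] (.set 70 [[], []] (.half 42 68 50 [ce 1 264 6 2 0xb7f, ce 1 264 1 1 0x1] (ce (-1) 264 8 2 0xda8) (.root 72 1 [] (ce (-1) 264 8 1 0xf1) (.fin 42 68 72 [[ce 1 264 7 2 0x3d81], [ce 1 264 5 1 0x11]] (.newt 76 [[ce 0 264 9 2 0x3ba2f, ce 0 264 6 2 0x8e0], [ce 4 264 7 1 0x49, ce 0 264 6 1 0x3f]] (.set 75 [[], []] (.half 42 73 50 [ce 0 264 6 2 0xb5f, ce (-2) 264 6 1 0x2d] (ce 0 264 8 2 0xeb80) (.root 77 1 [] (ce 2 264 6 1 0x3d) (.fin 42 73 77 [[ce 0 264 7 2 0x22a7], [ce (-2) 264 5 1 0x15]] (.newt 81 [[ce 2 264 9 2 0x1d917, ce 0 264 6 2 0xd58], [ce 1 264 9 1 0x1f1, ce (-2) 264 5 1 0x15]]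 (.set 80 [[], []] (.edead 42 78 50 [false, true, false, true, false] [ce (-1) 264 6 2 0xe55, ce (-1) 264 1 1 0x1])))) (.fin 42 73 77 [[ce 0 264 7 2 0x22a7], [ce (-2) 264 7 1 0x6b]] (.newt 81 [[ce 2 264 9 2 0x1d917, ce 0 264 6 2 0xd58], [ce 1 264 10 1 0x257, ce (-2) 264 6 1 0x2b]] (.set 80 [[], []] (.add 78 47 true [[ce 0 264 10 2 0xf717b], [ce (-2) 264 5 1 0x1b]] (.tr 82 [[ce (-2) 264 8 2 0xf7b5], [ce (-4) 264 7 1 0x4f]] (.half 42 83 50 [ce 0 264 6 2 0x46a, ce 1 264 6 1 0x2d] (ce 0 264 8 2 0x39e9) (.root 84 1 [] (ce (-1) 264 6 1 0x3d) (.fin 42 83 84 [[ce 0 264 7 2 0x3cfa], [ce 1 264 5 1 0x15]] (.newt 88 [[ce 2 264 8 2 0xaf7d, ce (-2) 264 6 2 0xf7], [ce 4 264 5 1 0x11, ce 0 264 5 1 0x17]] (.set 87 [[], []] (.edead 42 85 50 [false, true, false, false, false] [ce (-1) 264 6 2 0xd6d, ce (-2) 264 1 1 0x1])))) (.fin 42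 83 84 [[ce 0 264 7 2 0x3cfa], [ce 1 264 6 1 0x2b]] (.newt 88 [[ce 2 264 8 2 0xaf7d, ce (-2) 264 6 2 0xf7], [ce 0 264 7 1 0x79, ce 0 264 4 1 0x9]] (.set 87 [[], []] (.edead 42 85 50 [false, true, false, false, false] [ce (-1) 264 6 2 0xd6d, ce 0 264 1 1 0x1])))))))))))))))) (.fin 42 68 72 [[ce 1 264 7 2 0x3d81], [ce 1 264 7 1 0x6f]] (.newt 76 [[ce 0 264 9 2 0x3ba2f, ce 0 264 6 2 0x8e0], [ce 0 264 7 1 0x51, ce 0 264 1 1 0x1]] (.set 75 [[], []] (.half 42 73 50 [ce 0 264 6 2 0xb5f, ce 0 264 1 1 0x1] (ce 0 264 8 2 0xeb80) (.root 77 1 [] (ce 0 264 6 1 0x29) (.fin 42 73 77 [[ce 0 264 7 2 0x22a7], [ce 0 264 5 1 0x19]] (.newt 81 [[ce 2 264 9 2 0x1d917, ce 0 264 6 2 0xd58], [ce 2 264 8 1 0xdb, ce 0 264 6 1 0x27]] (.set 80 [[], []] (.edead 42 78 50 [false, true, false, true, false] [ce (-1) 264 6 2 0xe55, ce 0 264 1 0 0x0]))))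 (.fin 42 73 77 [[ce 0 264 7 2 0x22a7], [ce 0 264 7 1 0x67]] (.newt 81 [[ce 2 264 9 2 0x1d917, ce 0 264 6 2 0xd58], [ce 0 264 9 1 0x125, ce 0 264 5 1 0x19]] (.set 80 [[], []] (.edead 42 78 50 [false, true, false, true, false] [ce (-1) 264 6 2 0xe55, ce 0 264 1 0 0x0])))))))))))))))))))))))))

def r0_4 : Tree := .add 52 44 true [[ce (-5) 264 5 2 0x22b], [ce (-5) 264 5 1 0x15]] (.half 42 54 50 [ce 1 264 5 2 0x260, ce 2 264 1 1 0x1] (ce (-1) 264 6 2 0x4e1) (.root 55 1 [] (ce (-2) 264 1 1 0x1) (.fin 42 54 55 [[ce 1 264 4 2 0xd0], [ce 2 264 1 1 0x1]] (.newt 59 [[ce 0 264 7 2 0x3980, ce 0 264 4 2 0x93], [ce 4 264 4 1 0xb, ce 2 264 3 1 0x7]] (.newt 59 [[], [ce 6 264 5 1 0x19, ce 2 264 6 1 0x3f]] (.set 58 [[], []] (.half 42 56 50 [ce 0 264 5 2 0x260, ce (-3) 264 3 1 0x5] (ce 0 264 6 2 0x4e1) (.root 60 1 [] (ce 3 264 4 1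 0xd) (.fin 42 56 60 [[ce 0 264 4 2 0xd0], [ce (-3) 264 3 1 0x5]] (.newt 64 [[ce 0 264 7 2 0x2f80, ce 0 264 4 2 0x93], [ce 1 264 9 1 0x195, ce (-2) 264 1 1 0x1]] (.set 63 [[], []] (.edead 42 61 50 [false, false, false, false, false] [ce 0 264 6 2 0x176, ce 0 264 1 0 0x0])))) (.fin 42 56 60 [[ce 0 264 4 2 0xd0], [ce (-3) 264 5 1 0x1b]] (.newt 64 [[ce 0 264 7 2 0x2f80, ce 0 264 4 2 0x93], [ce 1 264 10 1 0x38b, ce (-2) 264 4 1 0xf]] (.set 63 [[], []] (.edead 42 61 50 [false, false, false, false, false] [ce 0 264 6 2 0x176, ce 0 264 1 0 0x0])))))))))) (.fin 42 54 55 [[ce 1 264 4 2 0xd0], [ce 2 264 5 1 0x1f]] (.newt 59 [[ce 0 264 7 2 0x3980, ce 0 264 4 2 0x93], [ce (-2) 264 7 1 0x41, ce 2 264 4 1 0x9]] (.set 58 [[], []] (.half 42 56 50 [ce 0 264 5 2 0x260, ce 1 264 1 1 0x1] (ce 0 264 6 2 0x4e1) (.root 60 1 [] (ce (-1)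 264 1 1 0x1) (.fin 42 56 60 [[ce 0 264 4 2 0xd0], [ce 1 264 1 1 0x1]] (.newt 64 [[ce 0 264 7 2 0x2f80, ce 0 264 4 2 0x93], [ce 0 264 1 0 0x0, ce 2 264 4 1 0xf]] (.newt 64 [[], [ce 4 264 7 1 0x77, ce 2 264 6 1 0x3f]] (.set 63 [[], []] (.edead 42 61 50 [false, false, false, false, false] [ce 0 264 6 2 0x176, ce (-2) 264 1 1 0x1]))))) (.fin 42 56 60 [[ce 0 264 4 2 0xd0], [ce 1 264 5 1 0x1f]] (.newt 64 [[ce 0 264 7 2 0x2f80, ce 0 264 4 2 0x93], [ce (-2) 264 7 1 0x71, ce 2 264 1 1 0x1]] (.set 63 [[], []] (.half 42 61 50 [ce 0 264 6 2 0x176, ce 1 264 1 1 0x1] (ce 0 264 6 2 0x85d) (.root 65 1 [] (ce (-1) 264 1 1 0x1) (.fin 42 61 65 [[ce 0 264 5 2 0xb6], [ce 1 264 1 1 0x1]] (.newt 69 [[ce 2 264 7 2 0x2795, ce (-2) 264 4 2 0xbb], [ce 4 264 4 1 0x9, ce 0 264 4 1 0xf]] (.set 68 [[], []] (.edead 42 66 50 [false, true, false,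 false, false] [ce (-1) 264 6 2 0x361, ce (-2) 264 1 1 0x1])))) (.fin 42 61 65 [[ce 0 264 5 2 0xb6], [ce 1 264 5 1 0x1f]] (.newt 69 [[ce 2 264 7 2 0x2795, ce (-2) 264 4 2 0xbb], [ce 0 264 6 1 0x31, ce 0 264 1 1 0x1]] (.set 68 [[], []] (.edead 42 66 50 [false, true, false, false, false] [ce (-1) 264 6 2 0x361, ce 0 264 1 1 0x1]))))))))))))))))

def r0_0 : Tree := .set 10 [[], []] (.set 11 [[], []] (.set 12 [[], []] (.set 13 [[], []] (.set 14 [[], []] (.set 15 [[], []] (.set 16 [[], []] (.set 17 [[], []] (.set 18 [[], []] (.set 19 [[], []] (.set 20 [[], []] (.set 21 [[ce 0 264 128 1 0xed206c6697f462b8dcac479f36af2ef1], [ce 0 264 128 1 0xed206c6697f462b8dcac479f36af2ef1]] (.set 22 [[ce 0 264 128 1 0xf40c8a473e4247132afc5c28504a6637], [ce 0 264 128 1 0xf40c8a473e4247132afc5c28504a6637]] (.set 23 [[], []] (.set 24 [[],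 []] (.set 25 [[], []] (.set 26 [[], []] (.set 27 [[], []] (.set 28 [[], []] (.set 29 [[], []] (.piv [13, 14, 15, 16, 17] [[ce 0 264 1 0 0x0], [ce 0 264 1 1 0x1], [ce 0 264 6 2 0xe4b], [ce 0 264 6 2 0x96f], [ce 0 264 6 2 0xb46, ce 0 264 1 1 0x1]] (.piv [] [] (.disc 30 (.root 32 0 [] (ce 0 264 1 1 0x1) (.root 32 1 [] (ce 0 264 1 1 0x1) (.set 31 [[ce 0 264 1 1 0x1], [ce 0 264 1 1 0x1]] (.set 35 [[ce 0 264 1 1 0x1], [ce 0 264 1 1 0x1]] (.set 36 [[], []] (.yrt 37 [] (ce 2 264 8 1 0x9d) (.root 53 1 [] (ce 2 264 8 1 0x9d) (.split 30 (.newt 32 [[ce 0 264 1 1 0x1, ce (-1) 264 1 1 0x1], [ce 0 264 1 1 0x1, ce (-1) 264 1 1 0x1]] (.set 31 [[ce 0 264 1 1 0x1], [ce 0 264 1 1 0x1]] (.set 35 [[ce 0 264 1 1 0x1], [ce 0 264 1 1 0x1]] (.set 36 [[], []] (.newt 52 [[ce 2 264 9 1 0x1fd, ce (-3) 264 3 1 0x5], [ce 2 264 9 1 0x1fd, ce (-3)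 264 3 1 0x5]] (.set 38 [[ce 0 264 1 1 0x1], [ce 0 264 1 1 0x1]] (.set 39 [[ce (-2) 264 1 1 0x1], [ce (-2) 264 1 1 0x1]] (.set 40 [[], []] (.dent 52 43 41 false [[ce (-3) 264 7 1 0x55], [ce (-3) 264 7 1 0x55]] [[ce 0 264 1 1 0x1], [ce 0 264 1 1 0x1]] [[ce 0 264 1 1 0x1], [ce 0 264 1 1 0x1]] (.deep 42 50 50 54 55 30 4 [8, 8] [([], [])] [([false, false, false, false, false], [ce 0 264 1 1 0x1, ce (-1) 264 1 1 0x1])] (.pcase 57 56 45 [[ce 0 264 1 1 0x1], [ce 0 264 10 1 0x36f]] (.yrt 58 [] (ce 0 264 1 1 0x1) (.root 60 1 [] (ce 4 264 1 1 0x1) (.half 42 59 50 [ce 0 264 5 2 0x260, ce (-2) 264 6 1 0x3d] (ce 0 264 6 2 0xb5f) (.root 61 1 [] (ce 2 264 5 1 0x15) (.fin 42 59 61 [[ce 0 264 5 2 0x260], [ce (-2) 264 5 1 0x1d]] (.newt 65 [[ce 0 264 7 2 0x2f80, ce 0 264 4 2 0x1b], [ce 1 264 6 1 0x31, ce (-2) 264 4 1 0xd]] (.set 64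 [[], []] (.edead 42 62 50 [false, false, false, false, false] [ce 0 264 6 2 0x176, ce 0 264 1 0 0x0])))) (.fin 42 59 61 [[ce 0 264 5 2 0x260], [ce (-2) 264 2 1 0x3]] (.newt 65 [[ce 0 264 7 2 0x2f80, ce 0 264 4 2 0x1b], [ce 1 264 9 1 0x197, ce (-2) 264 2 1 0x3]] (.set 64 [[], []] (.edead 42 62 50 [false, false, false, false, false] [ce 0 264 6 2 0x176, ce 0 264 1 0 0x0])))))) (.half 42 59 50 [ce 0 264 5 2 0x260, ce (-2) 264 6 1 0x3d] (ce 0 264 6 2 0xb5f) (.root 61 1 [] (ce 2 264 5 1 0x15) (.fin 42 59 61 [[ce 0 264 5 2 0x260], [ce (-2) 264 5 1 0x1d]] (.newt 65 [[ce 0 264 7 2 0x2f80, ce 0 264 4 2 0x1b], [ce 1 264 9 1 0x197, ce (-2) 264 2 1 0x3]] (.set 64 [[], []] (.edead 42 62 50 [false, false, false, false, false] [ce 0 264 6 2 0x176, ce 0 264 1 0 0x0])))) (.fin 42 59 61 [[ce 0 264 5 2 0x260], [ce (-2) 264 2 1 0x3]]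 (.newt 65 [[ce 0 264 7 2 0x2f80, ce 0 264 4 2 0x1b], [ce 1 264 6 1 0x31, ce (-2) 264 4 1 0xd]] (.set 64 [[], []] (.edead 42 62 50 [false, false, false, false, false] [ce 0 264 6 2 0x176, ce 0 264 1 0 0x0])))))))) (.pnil 57)) (.pnil 57) (.set 56 [[], []] (.set 57 [[], []] (.set 58 [[], []] (.set 59 [[ce (-4) 264 8 2 0x9d6f], [ce (-4) 264 8 1 0x91]] (.set 60 [[ce (-2) 264 6 2 0xac0], [ce (-2) 264 6 1 0x29]] (.half 42 61 50 [ce 2 264 6 2 0xb5f, ce 2 264 1 1 0x1] (ce (-2) 264 7 2 0x3a80) (.root 62 1 [] (ce (-2) 264 7 1 0x49) (.fin 42 61 62 [[ce 2 264 7 2 0xdf9], [ce 2 264 7 1 0x79]] (.newt 66 [[ce (-2) 264 8 2 0xdd2f, ce 2 264 6 2 0xcc0], [ce 6 264 4 1 0x9, ce 2 264 6 1 0x3f]] (.set 65 [[], []] (.half 42 63 50 [ce 1 264 6 2 0xb5f, ce (-3) 264 6 1 0x2d] (ce (-1) 264 8 2 0x9580) (.root 67 1 [] (ce 3 264 7 1 0x7d) (.fin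 42 63 67 [[ce 1 264 7 2 0x1dd9], [ce (-3) 264 7 1 0x55]] (.newt 71 [[ce (-2) 264 6 2 0x76f, ce 2 264 6 2 0xcc0], [ce 1 264 12 1 0xd95, ce (-2) 264 5 1 0x1d]] (.set 70 [[], []] (.edead 42 68 50 [false, false, false, false, false] [ce 1 264 6 2 0xb5f, ce 0 264 1 0 0x0])))) (.fin 42 63 67 [[ce 1 264 7 2 0x1dd9], [ce (-3) 264 6 1 0x2b]] (.newt 71 [[ce (-2) 264 6 2 0x76f, ce 2 264 6 2 0xcc0], [ce 1 264 13 1 0x138b, ce (-2) 264 6 1 0x23]] (.set 70 [[], []] (.edead 42 68 50 [false, false, false, false, false] [ce 1 264 6 2 0xb5f, ce 0 264 1 0 0x0]))))))))) (.fin 42 61 62 [[ce 2 264 7 2 0xdf9], [ce 2 264 3 1 0x7]] (.newt 66 [[ce (-2) 264 8 2 0xdd2f, ce 2 264 6 2 0xcc0], [ce (-2) 264 8 1 0xd1, ce 2 264 1 1 0x1]] (.set 65 [[], []] (.half 42 63 50 [ce 1 264 6 2 0xb5f, ce 1 264 1 1 0x1] (ce (-1) 264 8 2 0x9580) (.root 67 1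 [] (ce (-1) 264 8 1 0xe9) (.fin 42 63 67 [[ce 1 264 7 2 0x1dd9], [ce 1 264 7 1 0x59]] (.newt 71 [[ce (-2) 264 6 2 0x76f, ce 2 264 6 2 0xcc0], [ce 4 264 6 1 0x37, ce 2 264 6 1 0x3f]] (.set 70 [[], []] (.edead 42 68 50 [false, false, false, false, false] [ce 1 264 6 2 0xb5f, ce (-2) 264 1 1 0x1])))) (.fin 42 63 67 [[ce 1 264 7 2 0x1dd9], [ce 1 264 6 1 0x27]] (.newt 71 [[ce (-2) 264 6 2 0x76f, ce 2 264 6 2 0xcc0], [ce (-2) 264 9 1 0x151, ce 2 264 1 1 0x1]] (.set 70 [[], []] (.half 42 68 50 [ce 1 264 6 2 0xb5f, ce 1 264 1 1 0x1] (ce (-1) 264 8 2 0x95a0) (.root 72 1 [] (ce (-1) 264 6 1 0x29) (.fin 42 68 72 [[ce 1 264 7 2 0x2dd9], [ce 1 264 5 1 0x19]] (.newt 76 [[ce 0 264 9 2 0xbb5f, ce 0 264 6 2 0x4e0], [ce 4 264 5 1 0x19, ce 0 264 5 1 0x1f]] (.set 75 [[], []] (.half 42 73 50 [ce 0 264 6 2 0xb7f, ce (-2) 264 3 1 0x5]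 (ce 0 264 6 2 0x8e8) (.root 77 1 [] (ce 2 264 8 1 0xa5) (.fin 42 73 77 [[ce 0 264 7 2 0x228f], [ce (-2) 264 6 1 0x2d]] (.newt 81 [[ce 2 264 9 2 0x2f957, ce 0 264 6 2 0x178], [ce 1 264 10 1 0x231, ce (-2) 264 5 1 0x15]] (.set 80 [[], []] (.edead 42 78 50 [false, true, false, true, false] [ce (-1) 264 4 2 0x9d, ce (-1) 264 1 1 0x1])))) (.fin 42 73 77 [[ce 0 264 7 2 0x228f], [ce (-2) 264 7 1 0x53]] (.newt 81 [[ce 2 264 9 2 0x2f957, ce 0 264 6 2 0x178], [ce 1 264 8 1 0x97, ce (-2) 264 6 1 0x2b]] (.set 80 [[], []] (.add 78 47 true [[ce 0 264 10 2 0xe717b], [ce (-2) 264 9 1 0x1fb]] (.tr 82 [[ce (-2) 264 8 2 0xe7b5], [ce (-4) 264 3 1 0x7]] (.half 42 83 50 [ce 0 264 6 2 0x852, ce 1 264 1 1 0x1] (ce 0 264 8 2 0x51b9) (.root 84 1 [] (ce (-1) 264 6 1 0x29) (.fin 42 83 84 [[ce 0 264 7 2 0x14e2], [ce 1 264 5 1 0x19]] (.newt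 88 [[ce 2 264 9 2 0x3bf9d, ce (-2) 264 6 2 0xcd7], [ce 4 264 4 1 0x9, ce 0 264 5 1 0x1f]] (.set 87 [[], []] (.edead 42 85 50 [false, true, false, false, false] [ce (-1) 264 5 2 0x3ad, ce (-2) 264 1 1 0x1])))) (.fin 42 83 84 [[ce 0 264 7 2 0x14e2], [ce 1 264 6 1 0x27]] (.newt 88 [[ce 2 264 9 2 0x3bf9d, ce (-2) 264 6 2 0xcd7], [ce 0 264 1 1 0x1, ce 0 264 1 1 0x1]] (.set 87 [[], []] (.edead 42 85 50 [false, true, false, false, false] [ce (-1) 264 5 2 0x3ad, ce 0 264 1 1 0x1])))))))))))))))) (.fin 42 68 72 [[ce 1 264 7 2 0x2dd9], [ce 1 264 7 1 0x67]] (.newt 76 [[ce 0 264 9 2 0xbb5f, ce 0 264 6 2 0x4e0], [ce 0 264 1 1 0x1, ce 0 264 6 1 0x21]] (.set 75 [[], []] (.half 42 73 50 [ce 0 264 6 2 0xb7f, ce 0 264 1 1 0x1] (ce 0 264 6 2 0x8e8) (.root 77 1 [] (ce 0 264 1 1 0x1) (.fin 42 73 77 [[ce 0 264 7 2 0x228f], [ce 0 264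 1 1 0x1]] (.newt 81 [[ce 2 264 9 2 0x2f957, ce 0 264 6 2 0x178], [ce 2 264 8 1 0xcb, ce 0 264 6 1 0x27]] (.set 80 [[], []] (.edead 42 78 50 [false, true, false, true, false] [ce (-1) 264 4 2 0x9d, ce 0 264 1 0 0x0])))) (.fin 42 73 77 [[ce 0 264 7 2 0x228f], [ce 0 264 7 1 0x7f]] (.newt 81 [[ce 2 264 9 2 0x2f957, ce 0 264 6 2 0x178], [ce 0 264 8 1 0xd5, ce 0 264 5 1 0x19]] (.set 80 [[], []] (.edead 42 78 50 [false, true, false, true, false] [ce (-1) 264 4 2 0x9d, ce 0 264 1 0 0x0])))))))))))))))))))))))))))))))))))) (.newt 32 [[ce 0 264 10 2 0xf8001, ce (-1) 264 5 2 0x201], [ce 0 264 8 1 0xa1, ce (-1) 264 6 1 0x31]] (.set 31 [[ce 0 264 10 2 0xf0001], [ce 0 264 9 1 0x141]] (.set 35 [[ce 0 264 10 2 0xf0001], [ce 0 264 9 1 0x141]] (.set 36 [[], []] (.newt 52 [[ce 2 264 9 2 0x220fd, ce (-3) 264 6 2 0xe05], [ce 2 264 8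 1 0xad, ce (-3) 264 6 1 0x2d]] (.set 38 [[ce 0 264 10 2 0xf0001], [ce 0 264 9 1 0x141]] (.set 39 [[ce (-2) 264 6 2 0xc01], [ce (-2) 264 5 1 0x11]] (.set 40 [[], []] (.dent 52 43 41 false [[ce (-3) 264 7 2 0x1c55], [ce (-3) 264 6 1 0x3d]] [[ce 0 264 16 2 0x7800a801], [ce 0 264 15 1 0x5801]] [[ce 0 264 15 2 0x1a007c01], [ce 0 264 11 1 0x401]] (.deep 42 50 50 54 55 30 4 [8, 8] [([], [])] [([false, false, false, false, false], [ce 0 264 1 1 0x1, ce (-1) 264 1 1 0x1])] (.pcase 57 56 45 [[ce 0 264 1 1 0x1], [ce 0 264 10 1 0x36f]] (.yrt 58 [] (ce 0 264 1 1 0x1) (.root 60 1 [] (ce 4 264 1 1 0x1) (.half 42 59 50 [ce 0 264 5 2 0x260, ce (-2) 264 6 1 0x3d] (ce 0 264 6 2 0xb5f) r0_1) r0_2)) (.pnil 57)) (.pnil 57) r0_3))))))))))) r0_4))))) (.deadp 34 1 [] (ce 0 264 1 1 0x1))) (.root 32 1 [] (ce 0 264 1 1 0x1) (.deadp 34 0 []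 (ce 0 264 1 1 0x1)) (.deadp 34 0 [] (ce 0 264 1 1 0x1))))))))))))))))))))))))))

theorem r0 : run (FDK3.pick [1, 0]).ds (FDK3.pick [1, 0]).es [[], []] vs.length (fullH 9 vs (M 0 6) A) r0_0 = true := by
  decide +kernel

end Pool.Agent.Lib.MP_ab8df0_nt.T.B20
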